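import Mathlib
import Pool.Agent.Q234.Tens

set_option autoImplicit false

namespace Pool.Agent.Results.MP_7af562_mp.NotLUEquivFive

open Q234.LU Q234.LU.Pauli

/-- the generators `ZZZZI`, `XXIIX`, `IIXXX` of `S_A` -/
def genA : Fin 3 → Fin 5 → Pauli :=
  ![![Z, Z, Z, Z, I], ![X, X, I, I, X], ![I, I, X, X, X]]

/-- the generators `ZZIZX`, `XIZXI`, `IXXYI` of `S_B` -/
def genB : Fin 3 → Fin 5 → Pauli :=
  ![![Z, Z, I, Z, X], ![X, I, Z, X, I], ![I, X, X, Y, I]]

/-- support of the product of three strings -/
def suppB (a b c : Bool) : Finset (Fin 5) := Finset.univ.filter fun i => lab genB a b c i ≠ I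

lemma comb : ∀ a b c a' b' c' : Bool, (suppB a b c).card = 3 → (suppB a' b' c').card = 3 →
    (suppB a b c ∩ suppB a' b' c').card ≠ 1 := by
  decide

/-- The two five-qubit codespaces are not locally unitarily equivalent. -/
theorem result : ¬ LUEquiv (codeSpace genA) (codeSpace genB) := by
  rintro ⟨U, π, hU, hmap⟩
  have key := supp_transport genA genB (by decide) (by decide) U π hU hmap
  have hk : ∀ j, ∃ a b c, (Finset.univ.filter fun i => genA j i ≠ I) =
      (suppB a b c).map π.toEmbedding := by
    intro j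
    obtain ⟨a, b, c, h⟩ := key j
    refine ⟨a, b, c, ?_⟩
    ext i
    simp only [Finset.mem_filter, Finset.mem_univ, true_and, Finset.mem_map_equiv, suppB]
    have := h (π.symm i)
    rw [Equiv.apply_symm_apply] at this
    exact not_congr this
  obtain ⟨a, b, c, h1⟩ := hk 1
  obtain ⟨a', b', c', h2⟩ := hk 2
  have e1 : (Finset.univ.filter fun i => genA 1 i ≠ I).card = 3 := by decide
  have e2 : (Finset.univ.filter fun i => genA 2 i ≠ I).card = 3 := by decide
  have e3 : ((Finset.univ.filter fun i => genA 1 i ≠ I) ∩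
    (Finset.univ.filter fun i => genA 2 i ≠ I)).card = 1 := by decide
  rw [h1, Finset.card_map] at e1
  rw [h2, Finset.card_map] at e2
  rw [h1, h2, ← Finset.map_inter, Finset.card_map] at e3
  exact comb a b c a' b' c' e1 e2 e3

end Pool.Agent.Results.MP_7af562_mp.NotLUEquivFive
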