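import Mathlib
import Pool.Agent.Q234.Tens

set_option autoImplicit false

namespace Pool.Agent.Results.MP_7af562_mp.NotLUEquivSix

open Q234.LU Q234.LU.Pauli

/-- the generators `XXIIXX`, `IIXXXX`, `ZZZZIX` of `S_+` -/
def genPlus : Fin 3 → Fin 6 → Pauli :=
  ![![X, X, I, I, X, X], ![I, I, X, X, X, X], ![Z, Z, Z, Z, I, X]]

/-- the generators `XXZXII`, `ZZXYII`, `IZZZXX` of `S_-` -/
def genMinus : Fin 3 → Fin 6 → Pauli :=
  ![![X, X, Z, X, I, I], ![Z, Z, X, Y, I, I], ![I, Z, Z, Z, X, X]]

/-- support of the product of three strings -/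
def suppM (a b c : Bool) : Finset (Fin 6) := Finset.univ.filter fun i => lab genMinus a b c i ≠ I

lemma comb : ∀ a b c a' b' c' : Bool, (suppM a b c).card = 4 → (suppM a' b' c').card = 4 →
    (suppM a b c ∩ suppM a' b' c').card ≠ 2 := by
  decide

/-- The two six-qubit codespaces are not locally unitarily equivalent. -/
theorem result : ¬ LUEquiv (codeSpace genPlus) (codeSpace genMinus) := by
  rintro ⟨U, π, hU, hmap⟩
  have key := supp_transport genPlus genMinus (by decide) (by decide) U π hU hmap
  have hk : ∀ j, ∃ a b c, (Finset.univ.filter fun i => genPlus j i ≠ I) =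
      (suppM a b c).map π.toEmbedding := by
    intro j
    obtain ⟨a, b, c, h⟩ := key j
    refine ⟨a, b, c, ?_⟩
    ext i
    simp only [Finset.mem_filter, Finset.mem_univ, true_and, Finset.mem_map_equiv, suppM]
    have := h (π.symm i)
    rw [Equiv.apply_symm_apply] at this
    exact not_congr this
  obtain ⟨a, b, c, h1⟩ := hk 0
  obtain ⟨a', b', c', h2⟩ := hk 1
  have e1 : (Finset.univ.filter fun i => genPlus 0 i ≠ I).card = 4 := by decide
  have e2 : (Finset.univ.filter fun i => genPlus 1 i ≠ I).card = 4 := by decide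
  have e3 : ((Finset.univ.filter fun i => genPlus 0 i ≠ I) ∩
    (Finset.univ.filter fun i => genPlus 1 i ≠ I)).card = 2 := by decide
  rw [h1, Finset.card_map] at e1
  rw [h2, Finset.card_map] at e2
  rw [h1, h2, ← Finset.map_inter, Finset.card_map] at e3
  exact comb a b c a' b' c' e1 e2 e3

end Pool.Agent.Results.MP_7af562_mp.NotLUEquivSix
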